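import Pool.Agent.PEN.Fin71
import Pool.Agent.P4.Fin56

/-! # Hyperbolic penny graphs: the order-7 diameter is best among all `d ≥ 0.356`, and among all
`d > 0` up to 97 points

`e_d(n) ≤ e_{d(7)}(n)` for all `n` and every real `d ≥ 0.356` (`d(7) = 1.0905...`), and for every
`d > 0` if `n ≤ 97`. -/

set_option autoImplicit false

namespace Pool.Agent.Results.MP_45fc25_co.DiametersFromCosh

open UpperHalfPlane

/-- The angle `α(d)` of an equilateral triangle of side `d` in the hyperbolic plane: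
`cos α = tanh (d/2) / tanh d`. -/
noncomputable def alpha (d : ℝ) : ℝ := Real.arccos (Real.tanh (d / 2) / Real.tanh d)

/-- The graph on the finite set `P` of points of the hyperbolic plane (the upper half plane with
its metric of curvature -1) whose edges are the pairs of points at distance exactly `d`. -/
def minDistGraph (d : ℝ) (P : Finset ℍ) : SimpleGraph P where
  Adj x y := x ≠ y ∧ dist (x : ℍ) (y : ℍ) = d
  symm := ⟨fun x y h => ⟨h.1.symm, by rw [dist_comm]; exact h.2⟩⟩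
  loopless := ⟨fun x h => h.1 rfl⟩

/-- The numbers of edges of the minimum-distance graphs with minimum distance `d` on `n`
vertices: the points have pairwise distances at least `d`. -/
def edgeNumbers (d : ℝ) (n : ℕ) : Set ℕ :=
  {m : ℕ | ∃ P : Finset ℍ, P.card = n ∧ (∀ x ∈ P, ∀ y ∈ P, x ≠ y → d ≤ dist x y) ∧
    Nat.card (minDistGraph d P).edgeSet = m}

/-- `e_d(n)`, the largest number of edges. -/
noncomputable def e (d : ℝ) (n : ℕ) : ℕ := sSup (edgeNumbers d n)

/-- `e_d(n)` is a maximum for all `d > 0` and `n`; there is exactly one `d7 > 0` with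
`α(d7) = 2π/7`; and `e_d(n) ≤ e_{d7}(n)` for all `d > 0` if `n ≤ 97`, and for all `n` if
`d ≥ 0.356`. -/
theorem result :
    (∀ (d : ℝ) (n : ℕ), 0 < d → IsGreatest (edgeNumbers d n) (e d n)) ∧
    ∃ d7 : ℝ, 0 < d7 ∧ alpha d7 = 2 * Real.pi / 7 ∧ 27 / 20 < Real.cosh d7 ∧
      (∀ d : ℝ, 0 < d → alpha d = 2 * Real.pi / 7 → d = d7) ∧
      ∀ (d : ℝ) (n : ℕ), 0 < d → (n ≤ 97 ∨ 89 / 250 ≤ d) → e d n ≤ e d7 n := by
  refine ⟨fun d n hd => PEN.eD_greatest hd n, ?_⟩
  obtain ⟨d7, h0, h1, h2⟩ := PEN.exists_unique_dm (m := 7) (le_refl 7)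
  have h1' : PEN.alpha d7 = 2 * Real.pi / 7 := by
    rw [h1]
    norm_num
  refine ⟨d7, h0, h1', ?_, fun d hd h => h2 d hd ?_, fun d n hd h => PEN.q1_v6_56 h0 h1' hd h⟩
  · rw [PEN.cosh_d40 h0 h1']
    have h3 := PEN.kap_one_lt
    have h4 := PEN.kap_lt_two
    have h5 := PEN.kap_cubic
    rw [lt_div_iff₀ (by linarith)]
    by_contra h
    rw [not_lt] at h
    nlinarith [mul_nonneg (by linarith : (0:ℝ) ≤ PEN.kap40 - 1) (by linarith : (0:ℝ) ≤ 54/47 - PEN.kap40), sq_nonneg (PEN.kap40 - 1)]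
  · change alpha d = _
    rw [h]
    norm_num

end Pool.Agent.Results.MP_45fc25_co.DiametersFromCosh
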